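import Mathlib
import Pool.Agent.Helper599.PingPong

set_option autoImplicit false

namespace Pool.Agent.Results.MP_d3e052_al.ClosuresNotFG

open scoped commutatorElement

/-- The group `ℤ^m × F_n` (written multiplicatively). -/
abbrev GG (m n : ℕ) : Type := Multiplicative (Fin m → ℤ) × FreeGroup (Fin n)

/-- The common fixed subgroup of a set of endomorphisms. -/
def Fix {G : Type} [Group G] (S : Set (G →* G)) : Subgroup G where
  carrier := {g | ∀ φ ∈ S, φ g = g}
  one_mem' := by intro φ _; exact map_one φ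
  mul_mem' := by
    intro x y hx hy φ hφ
    rw [map_mul, hx φ hφ, hy φ hφ]
  inv_mem' := by
    intro x hx φ hφ
    rw [map_inv, hx φ hφ]

/-- The auto-stabilizer of a subgroup. -/
def aStab {G : Type} [Group G] (H : Subgroup G) : Set (G →* G) :=
  {φ | Function.Bijective φ ∧ ∀ h ∈ H, φ h = h}

/-- The endo-stabilizer of a subgroup. -/
def eStab {G : Type} [Group G] (H : Subgroup G) : Set (G →* G) :=
  {φ | ∀ h ∈ H, φ h = h}

/-- The auto-fixed closure. -/
def aCl {G : Type} [Group G] (H : Subgroup G) : Subgroup G := Fix (aStab H)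

/-- The endo-fixed closure. -/
def eCl {G : Type} [Group G] (H : Subgroup G) : Subgroup G := Fix (eStab H)

theorem mem_Fix {G : Type} [Group G] (S : Set (G →* G)) (g : G) :
    g ∈ Fix S ↔ ∀ φ ∈ S, φ g = g := Iff.rfl

/-- the free group of rank two -/
abbrev F : Type := FreeGroup (Fin 2)

/-- first generator -/
abbrev a : F := FreeGroup.of 0
/-- second generator -/
abbrev b : F := FreeGroup.of 1

/-- first commutator -/
def h1 : F := a * b * a⁻¹ * b⁻¹
/-- second commutator -/
def h2 : F := a⁻¹ * b * a * b⁻¹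

open Pool.Agent.Helper599.PP in
/-- The representation. -/
noncomputable def rho : F →* GL2 := FreeGroup.lift (fun i : Fin 2 => Au (cst i.val))

theorem rho_inj : Function.Injective rho :=
  Pool.Agent.Helper599.PP.injective (fun i : Fin 2 => i.val) Fin.val_injective

open Pool.Agent.Helper599.PP in
theorem rho_a : rho a = Au 3 := by
  simp [rho, a, cst]

open Pool.Agent.Helper599.PP in
theorem rho_b : rho b = Au 6 := by
  simp [rho, b, cst]

open Pool.Agent.Helper599.PP in
/-- The centralizer of the two commutators is trivial. -/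
theorem centr (u : F) (e1 : u * h1 = h1 * u) (e2 : u * h2 = h2 * u) : u = 1 := by
  have f1 : ∀ v, rho u (rho h1 v) = rho h1 (rho u v) := by
    intro v
    have := congrArg (fun w => rho w v) e1
    simpa [LinearEquiv.mul_apply] using this
  have f2 : ∀ v, rho u (rho h2 v) = rho h2 (rho u v) := by
    intro v
    have := congrArg (fun w => rho w v) e2
    simpa [LinearEquiv.mul_apply] using this
  have g1 : ∀ v, rho h1 v = (-701 * v.1 + 4131 * v.2, -243 * v.1 + 1432 * v.2) := by
    intro v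
    simp only [h1, map_mul, map_inv, rho_a, rho_b, LinearEquiv.mul_apply, Au_apply, Au_inv_apply]
    ext
    · simp only; ring
    · simp only; ring
  have g2 : ∀ v, rho h2 v = (271 * v.1 - 1539 * v.2, -81 * v.1 + 460 * v.2) := by
    intro v
    simp only [h2, map_mul, map_inv, rho_a, rho_b, LinearEquiv.mul_apply, Au_apply, Au_inv_apply]
    ext
    · simp only; ring
    · simp only; ring
  obtain ⟨x, z, hx⟩ : ∃ x z, rho u (1, 0) = (x, z) := ⟨_, _, rfl⟩
  obtain ⟨y, w, hy⟩ : ∃ y w, rho u (0, 1) = (y, w) := ⟨_, _, rfl⟩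
  have hu : ∀ v, rho u v = (v.1 * x + v.2 * y, v.1 * z + v.2 * w) := by
    intro v
    have : v = v.1 • ((1 : ℤ), (0 : ℤ)) + v.2 • ((0 : ℤ), (1 : ℤ)) := by
      ext <;> simp
    conv_lhs => rw [this]
    rw [map_add, map_smul, map_smul, hx, hy]
    ext <;> simp
  have k1 := f1 (1, 0)
  have k2 := f2 (1, 0)
  have k3 := f1 (0, 1)
  rw [g1, hu, hu, g1] at k1 k3
  rw [g2, hu, hu, g2] at k2
  simp only [Prod.mk.injEq] at k1 k2 k3
  have hy0 : y = 0 := by omega
  have hz0 : z = 0 := by omega
  have hxw : x = w := by omega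
  subst hy0 hz0 hxw
  obtain ⟨v, hv⟩ := (rho u).surjective (1, 0)
  rw [hu] at hv
  simp only [Prod.mk.injEq, mul_zero, add_zero, zero_add] at hv
  have hxx : x * x = 1 := by
    rcases Int.eq_one_or_neg_one_of_mul_eq_one' hv.1 with h | h
    · rw [h.2]; norm_num
    · rw [h.2]; norm_num
  have huu : rho (u * u) = rho 1 := by
    rw [map_mul, map_one]
    ext v
    all_goals
      simp only [LinearEquiv.mul_apply, hu, mul_zero, add_zero, zero_add]
      simp [mul_assoc, hxx]
  have h3 := rho_inj huu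
  have h4 : u ^ 2 = 1 := by rw [sq, h3]
  exact (pow_eq_one_iff_left two_ne_zero).1 h4

/-- The six generators. -/
def gens : Set (GG 1 2) :=
  {(1, h1), (1, h2), (1, a * h1 * a⁻¹), (1, a * h2 * a⁻¹), (1, b * h1 * b⁻¹), (1, b * h2 * b⁻¹)}

/-- The finitely generated subgroup. -/
def HH : Subgroup (GG 1 2) := Subgroup.closure gens

theorem HH_fg : HH.FG := by
  refine (Subgroup.fg_iff _).2 ⟨gens, rfl, ?_⟩
  unfold gens
  exact Set.toFinite _

theorem conj_fix (ψ : F →* F) (e1 : ψ h1 = h1) (e2 : ψ h2 = h2) (g : F)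
    (e3 : ψ (g * h1 * g⁻¹) = g * h1 * g⁻¹) (e4 : ψ (g * h2 * g⁻¹) = g * h2 * g⁻¹) : ψ g = g := by
  rw [map_mul, map_mul, map_inv, e1] at e3
  rw [map_mul, map_mul, map_inv, e2] at e4
  have key : ∀ h : F, ψ g * h * (ψ g)⁻¹ = g * h * g⁻¹ → (g⁻¹ * ψ g) * h = h * (g⁻¹ * ψ g) := by
    intro h e
    have : ψ g * h = g * h * g⁻¹ * ψ g := by rw [← e]; group
    rw [mul_assoc, this]; group
  have := centr (g⁻¹ * ψ g) (key _ e3) (key _ e4)
  exact (inv_mul_eq_one.1 this).symm

theorem snd_id (φ : GG 1 2 →* GG 1 2) (hφ : ∀ h ∈ HH, φ h = h) (u : F) : (φ (1, u)).2 = u := by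
  set ψ : F →* F := (MonoidHom.snd _ _).comp (φ.comp (MonoidHom.inr _ _)) with hψ
  have hψa : ∀ v, ψ v = (φ (1, v)).2 := fun v => rfl
  have hg : ∀ v : F, ((1, v) : GG 1 2) ∈ gens → ψ v = v := by
    intro v hv
    rw [hψa, hφ _ (Subgroup.subset_closure hv)]
  have : ψ = MonoidHom.id F := by
    ext i
    fin_cases i
    · exact conj_fix ψ (hg _ (by simp [gens])) (hg _ (by simp [gens])) a
        (hg _ (by simp [gens])) (hg _ (by simp [gens]))
    · exact conj_fix ψ (hg _ (by simp [gens])) (hg _ (by simp [gens])) b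
        (hg _ (by simp [gens])) (hg _ (by simp [gens]))
  rw [← hψa, this]; rfl

theorem comm_mem (x y : F) : ((1, x * y * x⁻¹ * y⁻¹) : GG 1 2) ∈ eCl HH := by
  rw [eCl, mem_Fix]
  intro φ hφ
  ext1
  · set l : F →* Multiplicative (Fin 1 → ℤ) :=
      (MonoidHom.fst _ _).comp (φ.comp (MonoidHom.inr _ _)) with hl
    have hla : ∀ v, l v = (φ (1, v)).1 := fun v => rfl
    rw [← hla, map_mul, map_mul, map_mul, map_inv, map_inv, mul_comm (l x) (l y)]
    group
  · exact snd_id φ hφ _

theorem e_le_a {G : Type} [Group G] (H : Subgroup G) : eCl H ≤ aCl H := by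
  intro g hg
  rw [aCl, mem_Fix]
  intro φ hφ
  exact hg φ hφ.2

/-- The automorphism inverting the abelian factor. -/
def sg : GG 1 2 →* GG 1 2 :=
  MonoidHom.prodMap (invMonoidHom) (MonoidHom.id F)

theorem fix_of_gens (φ : GG 1 2 →* GG 1 2) (h : ∀ g ∈ gens, φ g = g) : ∀ g ∈ HH, φ g = g := by
  have : HH ≤ Fix {φ} := by
    rw [HH, Subgroup.closure_le]
    intro g hg ψ hψ
    rw [Set.mem_singleton_iff] at hψ
    subst hψ
    exact h g hg
  intro g hg
  exact this hg φ rfl

theorem sg_mem : sg ∈ aStab HH := by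
  refine ⟨?_, ?_⟩
  · refine Function.bijective_iff_has_inverse.2 ⟨sg, ?_, ?_⟩
    · rintro ⟨c, u⟩
      simp [sg]
    · rintro ⟨c, u⟩
      simp [sg]
  · apply fix_of_gens
    intro g hg
    simp only [gens, Set.mem_insert_iff, Set.mem_singleton_iff] at hg
    rcases hg with h | h | h | h | h | h <;> (rw [h]; simp [sg])

/-- The exponent sum of the first generator. -/
noncomputable def ea : F →* Multiplicative (Fin 1 → ℤ) :=
  FreeGroup.lift ![Multiplicative.ofAdd (fun _ => 1), 1]

/-- The automorphism twisting the abelian factor. -/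
noncomputable def tw : GG 1 2 →* GG 1 2 where
  toFun p := (p.1 * ea p.2, p.2)
  map_one' := by simp
  map_mul' p q := by
    ext1
    · simp only [Prod.fst_mul, Prod.snd_mul, map_mul]
      exact mul_mul_mul_comm _ _ _ _
    · rfl

theorem tw_mem : tw ∈ aStab HH := by
  refine ⟨?_, ?_⟩
  · refine Function.bijective_iff_has_inverse.2 ⟨fun p => (p.1 * (ea p.2)⁻¹, p.2), ?_, ?_⟩
    · rintro ⟨c, u⟩
      simp [tw]
    · rintro ⟨c, u⟩
      simp [tw]
  · apply fix_of_gens
    have e1 : ea h1 = 1 := by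
      simp only [h1, map_mul, map_inv]
      rw [mul_comm (ea a) (ea b)]; group
    have e2 : ea h2 = 1 := by
      simp only [h2, map_mul, map_inv]
      rw [mul_comm (ea a)⁻¹ (ea b)]; group
    have e3 : ∀ g h, ea h = 1 → ea (g * h * g⁻¹) = 1 := by
      intro g h hh
      rw [map_mul, map_mul, map_inv, hh]; group
    intro g hg
    simp only [gens, Set.mem_insert_iff, Set.mem_singleton_iff] at hg
    have htw : ∀ u : F, ea u = 1 → tw (1, u) = (1, u) := by
      intro u hu
      change ((1 : Multiplicative (Fin 1 → ℤ)) * ea u, u) = _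
      rw [hu, mul_one]
    rcases hg with h | h | h | h | h | h
    · rw [h]; exact htw _ e1
    · rw [h]; exact htw _ e2
    · rw [h]; exact htw _ (e3 _ _ e1)
    · rw [h]; exact htw _ (e3 _ _ e2)
    · rw [h]; exact htw _ (e3 _ _ e1)
    · rw [h]; exact htw _ (e3 _ _ e2)

theorem ea_of_mem (p : GG 1 2) (hp : p ∈ aCl HH) : ea p.2 = 1 := by
  have := hp tw tw_mem
  have h2 : p.1 * ea p.2 = p.1 := congrArg Prod.fst this
  simpa using h2

/-- The horizontal shift. -/
def al : Equiv.Perm (ℤ × ℤ) where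
  toFun p := (p.1 + 1, p.2)
  invFun p := (p.1 - 1, p.2)
  left_inv p := by simp
  right_inv p := by simp

/-- The vertical shift of the central column. -/
def be : Equiv.Perm (ℤ × ℤ) where
  toFun p := (p.1, if p.1 = 0 then p.2 + 1 else p.2)
  invFun p := (p.1, if p.1 = 0 then p.2 - 1 else p.2)
  left_inv p := by
    by_cases h : p.1 = 0
    · ext <;> simp [h]
    · ext <;> simp [h]
  right_inv p := by
    by_cases h : p.1 = 0
    · ext <;> simp [h]
    · ext <;> simp [h]

/-- The action. -/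
noncomputable def act : F →* Equiv.Perm (ℤ × ℤ) := FreeGroup.lift ![al, be]

theorem act_a (p : ℤ × ℤ) : act a p = (p.1 + 1, p.2) := by
  simp [act, a, al]

theorem act_b (p : ℤ × ℤ) : act b p = (p.1, if p.1 = 0 then p.2 + 1 else p.2) := by
  simp [act, b, be]

theorem act_ai (p : ℤ × ℤ) : act a⁻¹ p = (p.1 - 1, p.2) := by
  rw [map_inv, Equiv.Perm.inv_eq_iff_eq, act_a]; simp

theorem act_bi (p : ℤ × ℤ) : act b⁻¹ p = (p.1, if p.1 = 0 then p.2 - 1 else p.2) := by
  rw [map_inv, Equiv.Perm.inv_eq_iff_eq, act_b]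
  by_cases h : p.1 = 0
  · ext <;> simp [h]
  · ext <;> simp [h]

/-- integer exponent sum -/
noncomputable def ez (w : F) : ℤ := (Multiplicative.toAdd (ea w)) 0

theorem ez_mul (v w : F) : ez (v * w) = ez v + ez w := by
  simp [ez]

theorem far (w : F) : ∃ N : ℤ, ∀ m n : ℤ, N < |m| → act w (m, n) = (m + ez w, n) := by
  induction w using FreeGroup.induction_on with
  | C1 => exact ⟨0, fun m n _ => by simp [ez]⟩
  | of i =>
    refine ⟨0, fun m n hm => ?_⟩
    have hm0 : m ≠ 0 := by rintro rfl; simp at hm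
    fin_cases i
    · change act a (m, n) = (m + ez a, n)
      rw [act_a]; simp [ez, ea, a]
    · change act b (m, n) = (m + ez b, n)
      rw [act_b]; simp [ez, ea, b, hm0]
  | inv_of i _ =>
    refine ⟨0, fun m n hm => ?_⟩
    have hm0 : m ≠ 0 := by rintro rfl; simp at hm
    fin_cases i
    · change act a⁻¹ (m, n) = (m + ez a⁻¹, n)
      rw [act_ai]; simp [ez, ea, a]; rfl
    · change act b⁻¹ (m, n) = (m + ez b⁻¹, n)
      rw [act_bi]; simp [ez, ea, b, hm0]
  | mul x y hx hy =>
    obtain ⟨N, hN⟩ := hx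
    obtain ⟨M, hM⟩ := hy
    refine ⟨max M (N + |ez y|), fun m n hm => ?_⟩
    rw [map_mul, Equiv.Perm.mul_apply, hM m n (lt_of_le_of_lt (le_max_left _ _) hm), hN, ez_mul]
    · ext
      · simp only; ring
      · rfl
    · have h1 := lt_of_le_of_lt (le_max_right _ _) hm
      have h2 : |m| ≤ |m + ez y| + |ez y| := by
        have := abs_sub (m + ez y) (ez y)
        rwa [add_sub_cancel_right] at this
      omega

theorem act_apow (k : ℕ) (p : ℤ × ℤ) : act (a ^ k) p = (p.1 + k, p.2) := by
  induction k with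
  | zero => simp
  | succ k ih =>
    rw [pow_succ', map_mul, Equiv.Perm.mul_apply, ih, act_a]
    push_cast
    ext
    · simp only; ring
    · rfl

theorem act_apowi (k : ℕ) (p : ℤ × ℤ) : act (a ^ k)⁻¹ p = (p.1 - k, p.2) := by
  rw [map_inv, Equiv.Perm.inv_eq_iff_eq, act_apow]; simp

theorem not_fg (L : Subgroup (GG 1 2)) (h1 : eCl HH ≤ L) (h2 : L ≤ aCl HH) : ¬ L.FG := by
  rintro ⟨S, hS⟩
  have hex : ∀ s : GG 1 2, ∃ N : ℤ, ∀ m n : ℤ, N < |m| → act s.2 (m, n) = (m + ez s.2, n) :=
    fun s => far s.2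
  choose N hN using hex
  obtain ⟨M, hM⟩ := (S.image N).exists_le
  have key : ∀ x ∈ L, ∀ m n : ℤ, M < |m| → act x.2 (m, n) = (m, n) := by
    intro x hx
    rw [← hS] at hx
    induction hx using Subgroup.closure_induction with
    | mem s hs =>
      intro m n hm
      have e0 : ez s.2 = 0 := by
        have : ea s.2 = 1 := ea_of_mem s (h2 (hS ▸ Subgroup.subset_closure hs))
        rw [ez, this]; rfl
      rw [hN s m n (lt_of_le_of_lt (hM _ (Finset.mem_image_of_mem _ hs)) hm), e0, add_zero]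
    | one => intro m n hm; simp
    | mul x y _ _ hx hy =>
      intro m n hm
      rw [Prod.snd_mul, map_mul, Equiv.Perm.mul_apply, hy m n hm, hx m n hm]
    | inv x _ hx =>
      intro m n hm
      rw [Prod.snd_inv, map_inv, Equiv.Perm.inv_eq_iff_eq, hx m n hm]
  set k : ℕ := M.toNat + 1 with hk
  have := key _ (h1 (comm_mem (a ^ k) b)) k 0 (by
    rw [abs_of_nonneg (by positivity)]
    omega)
  simp only [map_mul, Equiv.Perm.mul_apply, act_bi, act_apowi, act_b, act_apow] at this
  simp at this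

/-- There is a finitely generated subgroup `H` of `ℤ × F_2` such that neither the auto-fixed
closure nor the endo-fixed closure of `H` is finitely generated. -/
theorem result :
    ∃ H : Subgroup (GG 1 2), H.FG ∧ ¬ (aCl H).FG ∧ ¬ (eCl H).FG :=
  ⟨HH, HH_fg, not_fg _ (e_le_a _) le_rfl, not_fg _ le_rfl (e_le_a _)⟩

end Pool.Agent.Results.MP_d3e052_al.ClosuresNotFG
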